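import Mathlib

/-!
# The locally nilpotent radicals of an Engel Lie algebra and of its multiplication algebra

For every field `F` there are an Engel Lie algebra `A` over `F`, which is even locally nilpotent
(so `L(A) = A`), and an element `a` of `A` such that the right multiplication `R_a` does not lie
in the locally nilpotent radical `L(A^*)` of the multiplication algebra `A^*`.

Example: `A = F[X] × F` with the bracket `[(v, c), (w, d)] = (d T v - c T w, 0)`, where
`T (X ^ (n + 1)) = X ^ n`, `T 1 = 0`. Every element of `F[X]` is killed by a power of `T`, so `A` is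
locally nilpotent; but no power of `T` is zero, so `R_a` is not nilpotent for `a = (0, 1)`, while
the elements of the locally nilpotent radical of an associative algebra are nilpotent.
-/

set_option autoImplicit false

namespace Pool.Agent.Results.MP_2c0ed3_al.RadicalNotEquivalent

open Polynomial

universe u

/-- A Lie algebra is **Engel** if for all `x`, `y` there is `n ≥ 1` with
`[⋯[[y, x], x], …, x] = 0` (`n` brackets with `x`); `n` may depend on `x` and `y`. -/
def IsEngel (A : Type u) [LieRing A] : Prop :=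
  ∀ x y : A, ∃ n : ℕ, 1 ≤ n ∧ (fun z : A => ⁅z, x⁆)^[n] y = 0

/-- An ideal `I` of a Lie algebra `A` is **locally nilpotent** if every finitely generated
subalgebra of `I` is nilpotent. -/
def LieLocallyNilpotent (F : Type u) [Field F] (A : Type u) [LieRing A] [LieAlgebra F A]
    (I : LieIdeal F A) : Prop :=
  ∀ s : Finset A, (∀ x ∈ s, x ∈ I) →
    LieRing.IsNilpotent (LieSubalgebra.lieSpan F A (s : Set A))

/-- The locally nilpotent radical `L(A)` of a Lie algebra `A`: the sum of all locally nilpotent
ideals of `A`. -/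
def lieRadical (F : Type u) [Field F] (A : Type u) [LieRing A] [LieAlgebra F A] : LieIdeal F A :=
  sSup {I : LieIdeal F A | LieLocallyNilpotent F A I}

/-- The right multiplication `R_a : x ↦ [x, a]`. -/
def rightMul (F : Type u) [Field F] (A : Type u) [LieRing A] [LieAlgebra F A] (a : A) :
    Module.End F A where
  toFun x := ⁅x, a⁆
  map_add' x y := add_lie x y a
  map_smul' c x := smul_lie c x a

/-- The multiplication algebra `A^*`: the associative subalgebra (without adjoined identity) of
`End_F(A)` generated by all right multiplications. -/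
def multAlg (F : Type u) [Field F] (A : Type u) [LieRing A] [LieAlgebra F A] :
    NonUnitalSubalgebra F (Module.End F A) :=
  NonUnitalAlgebra.adjoin F (Set.range (rightMul F A))

section Assoc

variable {F : Type u} [Field F] {E : Type u} [Ring E] [Algebra F E]

/-- A nonunital subalgebra `S` of an associative algebra is **nilpotent** if for some `n ≥ 1` all
products of `n` elements of `S` are zero. -/
def IsNilpotentAlg (S : NonUnitalSubalgebra F E) : Prop :=
  ∃ n : ℕ, 1 ≤ n ∧ ∀ l : List E, l.length = n → (∀ x ∈ l, x ∈ S) → l.prod = 0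

/-- The subspace `I` is a two-sided ideal of the nonunital associative algebra `X`. -/
def IsIdealOf (X : NonUnitalSubalgebra F E) (I : Submodule F E) : Prop :=
  (∀ x ∈ I, x ∈ X) ∧ ∀ x ∈ X, ∀ y ∈ I, x * y ∈ I ∧ y * x ∈ I

/-- `I` is a locally nilpotent ideal of `X`: a two-sided ideal all of whose finitely generated
subalgebras are nilpotent. -/
def IsLocNilpotentIdeal (X : NonUnitalSubalgebra F E) (I : Submodule F E) : Prop :=
  IsIdealOf X I ∧ ∀ s : Finset E, (∀ x ∈ s, x ∈ I) →
    IsNilpotentAlg (NonUnitalAlgebra.adjoin F (s : Set E))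

/-- The locally nilpotent (Levitzki) radical `L(X)` of an associative algebra `X`: the sum of all
locally nilpotent ideals of `X`. -/
def assocRadical (X : NonUnitalSubalgebra F E) : Submodule F E :=
  sSup {I : Submodule F E | IsLocNilpotentIdeal X I}

/-- a locally nilpotent ideal is nil -/
theorem nil_of_locNilpotent {X : NonUnitalSubalgebra F E} {I : Submodule F E}
    (h : IsLocNilpotentIdeal X I) {x : E} (hx : x ∈ I) : IsNilpotent x := by
  classical
  obtain ⟨n, -, hn⟩ := h.2 {x} (by intro y hy; rw [Finset.mem_singleton.1 hy]; exact hx)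
  refine ⟨n, ?_⟩
  have := hn (List.replicate n x) (List.length_replicate ..) (by
    intro y hy
    rw [List.eq_of_mem_replicate hy]
    exact NonUnitalAlgebra.subset_adjoin F (by simp))
  rwa [List.prod_replicate] at this

/-- the sum of two nil ideals is nil -/
theorem nil_add {X : NonUnitalSubalgebra F E} {I J : Submodule F E} (hI : IsIdealOf X I)
    (hJ : IsIdealOf X J) (nI : ∀ x ∈ I, IsNilpotent x) (nJ : ∀ x ∈ J, IsNilpotent x) :
    IsIdealOf X (I ⊔ J) ∧ ∀ x ∈ I ⊔ J, IsNilpotent x := by
  constructor
  · constructor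
    · intro x hx
      obtain ⟨y, hy, z, hz, rfl⟩ := Submodule.mem_sup.1 hx
      exact add_mem (hI.1 y hy) (hJ.1 z hz)
    · intro x hx w hw
      obtain ⟨y, hy, z, hz, rfl⟩ := Submodule.mem_sup.1 hw
      rw [mul_add, add_mul]
      exact ⟨Submodule.add_mem_sup (hI.2 x hx y hy).1 (hJ.2 x hx z hz).1,
        Submodule.add_mem_sup (hI.2 x hx y hy).2 (hJ.2 x hx z hz).2⟩
  · intro x hx
    obtain ⟨y, hy, z, hz, rfl⟩ := Submodule.mem_sup.1 hx
    obtain ⟨n, hn⟩ := nJ z hz
    have hyX := hI.1 y hy
    have hzX := hJ.1 z hz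
    -- `(y + z) ^ (k + 1) - z ^ (k + 1) ∈ I`
    have key : ∀ k : ℕ, (y + z) ^ (k + 1) - z ^ (k + 1) ∈ I := by
      intro k
      induction k with
      | zero => simpa using hy
      | succ k ih =>
        have hzk : ∀ m : ℕ, z ^ (m + 1) ∈ X := by
          intro m
          induction m with
          | zero => simpa using hzX
          | succ m ihm => rw [pow_succ]; exact mul_mem ihm hzX
        have e : (y + z) ^ (k + 1 + 1) - z ^ (k + 1 + 1) =
            ((y + z) ^ (k + 1) - z ^ (k + 1)) * (y + z) + z ^ (k + 1) * y := by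
          rw [pow_succ (y + z) (k + 1), pow_succ z (k + 1)]
          noncomm_ring
        rw [e]
        exact add_mem (hI.2 _ (add_mem hyX hzX) _ ih).2 (hI.2 _ (hzk k) _ hy).1
    have h1 : (y + z) ^ (n + 1) ∈ I := by
      have := key n
      rw [pow_succ z n, hn, zero_mul, sub_zero] at this
      exact this
    exact (nI _ h1).of_pow

/-- the elements of the locally nilpotent radical are nilpotent -/
theorem nil_radical {X : NonUnitalSubalgebra F E} {x : E} (hx : x ∈ assocRadical X) :
    IsNilpotent x := by
  classical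
  obtain ⟨s, hs⟩ := Submodule.mem_sSup_iff_exists_finset.1 hx
  have h2 : ∀ t : Finset (Submodule F E), (↑t ⊆ {I : Submodule F E | IsLocNilpotentIdeal X I}) →
      IsIdealOf X (⨆ i ∈ t, i) ∧ ∀ y ∈ (⨆ i ∈ t, i), IsNilpotent y := by
    intro t
    induction t using Finset.induction_on with
    | empty =>
      intro _
      simp only [Finset.notMem_empty, iSup_false, iSup_bot]
      refine ⟨⟨?_, ?_⟩, ?_⟩
      · intro y hy
        rw [(Submodule.mem_bot F).1 hy]
        exact zero_mem X
      · intro y _ z hz
        rw [(Submodule.mem_bot F).1 hz, mul_zero, zero_mul]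
        exact ⟨zero_mem _, zero_mem _⟩
      · intro y hy
        rw [(Submodule.mem_bot F).1 hy]
        exact IsNilpotent.zero
    | insert I t hI ih =>
      intro ht
      rw [Finset.iSup_insert]
      have hIm : IsLocNilpotentIdeal X I := ht (by simp)
      have := ih (fun J hJ => ht (by simp only [Finset.coe_insert, Set.mem_insert_iff]; exact Or.inr hJ))
      exact nil_add hIm.1 this.1 (fun y hy => nil_of_locNilpotent hIm hy) this.2
  exact (h2 s hs.1).2 x hs.2

end Assoc

/-! ### The example -/

section Example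

variable (F : Type u) [Field F]

/-- `T (X ^ (n + 1)) = X ^ n`, `T 1 = 0`. -/
noncomputable def T : F[X] →ₗ[F] F[X] where
  toFun p := p.divX
  map_add' _ _ := divX_add
  map_smul' c p := by
    ext n
    simp [coeff_divX]

theorem T_pow_X (n k : ℕ) : ((T F) ^ n) (X ^ (n + k)) = X ^ k := by
  induction n with
  | zero => simp
  | succ n ih =>
    rw [pow_succ, Module.End.mul_apply]
    have : (T F) (X ^ (n + 1 + k)) = X ^ (n + k) := by
      show (X ^ (n + 1 + k) : F[X]).divX = _
      rw [show n + 1 + k = (n + k) + 1 by ring, divX_X_pow]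
      simp
    rw [this, ih]

theorem T_pow_eq_zero (p : F[X]) (n : ℕ) (h : p.natDegree < n) : ((T F) ^ n) p = 0 := by
  induction n generalizing p with
  | zero => omega
  | succ n ih =>
    rw [pow_succ, Module.End.mul_apply]
    rcases Nat.eq_zero_or_pos p.natDegree with h0 | h0
    · have : (T F) p = 0 := by
        show p.divX = 0
        exact divX_eq_zero_iff.2 (eq_C_of_natDegree_eq_zero h0)
      rw [this, map_zero]
    · apply ih
      show p.divX.natDegree < n
      rw [natDegree_divX_eq_natDegree_tsub_one]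
      omega

/-- The vector space `F[X] × F`. -/
def L : Type u := F[X] × F

noncomputable instance : AddCommGroup (L F) := inferInstanceAs (AddCommGroup (F[X] × F))

noncomputable instance : Module F (L F) := inferInstanceAs (Module F (F[X] × F))

variable {F}

theorem add_fst (x y : L F) : (x + y).1 = x.1 + y.1 := rfl
theorem add_snd (x y : L F) : (x + y).2 = x.2 + y.2 := rfl
theorem zero_fst : (0 : L F).1 = 0 := rfl
theorem zero_snd : (0 : L F).2 = 0 := rfl
theorem smul_fst (c : F) (x : L F) : (c • x).1 = c • x.1 := rfl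
theorem smul_snd (c : F) (x : L F) : (c • x).2 = c • x.2 := rfl

/-- The bracket `[(v, c), (w, d)] = (d T v - c T w, 0)`. -/
noncomputable instance : Bracket (L F) (L F) :=
  ⟨fun x y => (y.2 • (T F) x.1 - x.2 • (T F) y.1, 0)⟩

theorem lie_fst (x y : L F) : ⁅x, y⁆.1 = y.2 • (T F) x.1 - x.2 • (T F) y.1 := rfl
theorem lie_snd (x y : L F) : ⁅x, y⁆.2 = 0 := rfl

/-- the element `(v, c)` -/
def el (v : F[X]) (c : F) : L F := (v, c)

theorem el_fst (v : F[X]) (c : F) : (el v c).1 = v := rfl
theorem el_snd (v : F[X]) (c : F) : (el v c).2 = c := rfl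

theorem ext' {x y : L F} (h1 : x.1 = y.1) (h2 : x.2 = y.2) : x = y := Prod.ext h1 h2

noncomputable instance : LieRing (L F) where
  add_lie x y z := by
    apply ext'
    · rw [add_fst, lie_fst, lie_fst, lie_fst, add_fst, add_snd, map_add, smul_add, add_smul]
      abel
    · rw [add_snd, lie_snd, lie_snd, lie_snd, add_zero]
  lie_add x y z := by
    apply ext'
    · rw [add_fst, lie_fst, lie_fst, lie_fst, add_fst, add_snd, map_add, smul_add, add_smul]
      abel
    · rw [add_snd, lie_snd, lie_snd, lie_snd, add_zero]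
  lie_self x := by
    apply ext'
    · rw [lie_fst, sub_self, zero_fst]
    · rw [lie_snd, zero_snd]
  leibniz_lie x y z := by
    apply ext'
    · simp only [add_fst, lie_fst, lie_snd, map_sub, map_smul, zero_smul, smul_sub, sub_zero,
        zero_sub]
      rw [smul_comm z.2 y.2, smul_comm z.2 x.2, smul_comm y.2 x.2 ((T F) ((T F) z.1))]
      abel
    · rw [add_snd, lie_snd, lie_snd, lie_snd, add_zero]

noncomputable instance : LieAlgebra F (L F) where
  lie_smul c x y := by
    apply ext'
    · rw [smul_fst, lie_fst, lie_fst, smul_fst, smul_snd, map_smul, smul_sub, smul_comm x.2 c,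
        smul_eq_mul, mul_smul]
    · rw [smul_snd, lie_snd, lie_snd, smul_zero]

/-- the elements with first component of degree `< n` -/
noncomputable def bounded (n : ℕ) : LieSubalgebra F (L F) where
  carrier := {x | x.1.degree < n}
  add_mem' := by
    intro x y hx hy
    exact lt_of_le_of_lt (degree_add_le _ _) (max_lt hx hy)
  zero_mem' := by
    show (0 : F[X]).degree < n
    rw [degree_zero]
    exact WithBot.bot_lt_coe n
  smul_mem' := by
    intro c x hx
    exact lt_of_le_of_lt (degree_smul_le _ _) hx
  lie_mem' := by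
    intro x y hx hy
    have h : ∀ (p : F[X]) (c : F), p.degree < n → (c • (T F) p).degree < n := by
      intro p c hp
      refine lt_of_le_of_lt (degree_smul_le _ _) ?_
      by_cases h0 : p = 0
      · rw [h0, map_zero, degree_zero]
        exact WithBot.bot_lt_coe n
      · exact lt_of_lt_of_le (degree_divX_lt h0) hp.le
    exact lt_of_le_of_lt (degree_sub_le _ _) (max_lt (h _ _ hx) (h _ _ hy))

theorem mem_bounded {n : ℕ} {x : L F} : x ∈ bounded n ↔ x.1.degree < n := Iff.rfl

/-- the elements `(v, 0)` of a subalgebra `S` with `T ^ m v = 0` -/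
noncomputable def N (S : LieSubalgebra F (L F)) (m : ℕ) : LieIdeal F S where
  carrier := {x | x.1.2 = 0 ∧ ((T F) ^ m) x.1.1 = 0}
  add_mem' := by
    rintro x y ⟨hx, hx'⟩ ⟨hy, hy'⟩
    constructor
    · show (x.1 + y.1).2 = 0
      rw [add_snd, hx, hy, add_zero]
    · show ((T F) ^ m) (x.1 + y.1).1 = 0
      rw [add_fst, map_add, hx', hy', add_zero]
  zero_mem' := ⟨rfl, by
    show ((T F) ^ m) (0 : L F).1 = 0
    rw [zero_fst, map_zero]⟩
  smul_mem' := by
    rintro c x ⟨hx, hx'⟩
    constructor
    · show (c • x.1).2 = 0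
      rw [smul_snd, hx, smul_zero]
    · show ((T F) ^ m) (c • x.1).1 = 0
      rw [smul_fst, map_smul, hx', smul_zero]
  lie_mem := by
    rintro x y ⟨hy, hy'⟩
    constructor
    · show (⁅x.1, y.1⁆ : L F).2 = 0
      rw [lie_snd]
    · show ((T F) ^ m) (⁅x.1, y.1⁆ : L F).1 = 0
      rw [lie_fst, hy, zero_smul, zero_sub, map_neg, map_smul, ← Module.End.mul_apply, ← pow_succ,
        pow_succ', Module.End.mul_apply, hy', map_zero, smul_zero, neg_zero]

theorem mem_N {S : LieSubalgebra F (L F)} {m : ℕ} {x : S} :
    x ∈ N S m ↔ x.1.2 = 0 ∧ ((T F) ^ m) x.1.1 = 0 := Iff.rfl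

theorem lcs_le (S : LieSubalgebra F (L F)) (n : ℕ) (hS : S ≤ bounded n) (k m : ℕ)
    (h : k + m = n) : LieModule.lowerCentralSeries F S S (k + 1) ≤ N S m := by
  induction k generalizing m with
  | zero =>
    rw [zero_add, LieModule.lowerCentralSeries_succ, LieSubmodule.lie_le_iff]
    intro x _ y _
    rw [mem_N]
    have hm : m = n := by omega
    subst hm
    constructor
    · show (⁅x.1, y.1⁆ : L F).2 = 0
      rw [lie_snd]
    · show ((T F) ^ m) (⁅x.1, y.1⁆ : L F).1 = 0
      have h2 : ∀ z : S, ((T F) ^ m) ((T F) z.1.1) = 0 := by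
        intro z
        rw [← Module.End.mul_apply, ← pow_succ]
        apply T_pow_eq_zero
        have h3 : z.1.1.degree < m := mem_bounded.1 (hS z.2)
        by_cases h0 : z.1.1 = 0
        · rw [h0, natDegree_zero]
          omega
        · have := (natDegree_lt_iff_degree_lt h0).2 h3
          omega
      rw [lie_fst, map_sub, map_smul, map_smul, h2, h2, smul_zero, smul_zero, sub_zero]
  | succ k ih =>
    rw [LieModule.lowerCentralSeries_succ, LieSubmodule.lie_le_iff]
    intro x _ y hy
    have h1 := ih (m + 1) (by omega) hy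
    rw [mem_N] at h1 ⊢
    constructor
    · show (⁅x.1, y.1⁆ : L F).2 = 0
      rw [lie_snd]
    · show ((T F) ^ m) (⁅x.1, y.1⁆ : L F).1 = 0
      rw [lie_fst, h1.1, zero_smul, zero_sub, map_neg, map_smul, ← Module.End.mul_apply,
        ← pow_succ, h1.2, smul_zero, neg_zero]

theorem nilpotent_of_le (S : LieSubalgebra F (L F)) (n : ℕ) (hS : S ≤ bounded n) :
    LieRing.IsNilpotent S := by
  refine (LieModule.isNilpotent_iff F S S).2 ⟨n + 1, ?_⟩
  rw [eq_bot_iff]
  refine (lcs_le S n hS n 0 (by omega)).trans ?_
  intro x hx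
  rw [mem_N] at hx
  rw [LieSubmodule.mem_bot]
  apply Subtype.ext
  apply ext'
  · have := hx.2
    rw [pow_zero] at this
    exact this
  · exact hx.1

theorem exists_bounded (s : Finset (L F)) : ∃ n : ℕ, (s : Set (L F)) ⊆ bounded (F := F) n := by
  refine ⟨s.sup (fun x => x.1.natDegree + 1), ?_⟩
  intro x hx
  show x.1.degree < _
  have h1 : x.1.natDegree + 1 ≤ s.sup (fun x => x.1.natDegree + 1) :=
    Finset.le_sup (f := fun x : L F => x.1.natDegree + 1) hx
  refine lt_of_le_of_lt degree_le_natDegree ?_
  exact_mod_cast Nat.lt_of_succ_le h1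

theorem loc_nilpotent : LieLocallyNilpotent F (L F) ⊤ := by
  intro s _
  obtain ⟨n, hn⟩ := exists_bounded s
  exact nilpotent_of_le _ n (LieSubalgebra.lieSpan_le.2 hn)

theorem radical_eq_top : lieRadical F (L F) = ⊤ := by
  rw [eq_top_iff]
  exact le_sSup loc_nilpotent

/-- A locally nilpotent Lie algebra is Engel. -/
theorem engel : IsEngel (L F) := by
  classical
  intro x y
  obtain ⟨n, hn⟩ := exists_bounded {x, y}
  set S : LieSubalgebra F (L F) := bounded n with hS
  have hnil : LieRing.IsNilpotent S := nilpotent_of_le S n le_rfl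
  obtain ⟨k, hk⟩ := LieModule.exists_forall_pow_toEnd_eq_zero F S S
  have hx : x ∈ S := hn (by simp)
  have hy : y ∈ S := hn (by simp)
  refine ⟨k + 1, by omega, ?_⟩
  have h1 : ∀ m : ℕ, (fun z : L F => ⁅z, x⁆)^[m] y =
      (((-1 : F) ^ m • ((LieModule.toEnd F S S ⟨x, hx⟩) ^ m) ⟨y, hy⟩ : S) : L F) := by
    intro m
    induction m with
    | zero => simp
    | succ m ih =>
      rw [Function.iterate_succ_apply', ih, pow_succ' (LieModule.toEnd F S S ⟨x, hx⟩) m,
        Module.End.mul_apply, LieModule.toEnd_apply_apply]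
      show ⁅(-1 : F) ^ m • (((LieModule.toEnd F S S ⟨x, hx⟩) ^ m) ⟨y, hy⟩ : S).1, x⁆ =
        (-1 : F) ^ (m + 1) • ⁅x, (((LieModule.toEnd F S S ⟨x, hx⟩) ^ m) ⟨y, hy⟩ : S).1⁆
      rw [smul_lie, ← lie_skew, pow_succ, mul_smul, neg_one_smul]
  rw [h1, pow_succ (LieModule.toEnd F S S ⟨x, hx⟩) k, Module.End.mul_apply, hk]
  simp

theorem rightMul_el (v : F[X]) : rightMul F (L F) (el 0 1) (el v 0) = el ((T F) v) 0 := by
  show (⁅el v 0, el 0 1⁆ : L F) = el ((T F) v) 0
  apply ext'
  · rw [lie_fst, el_fst, el_fst, el_snd, el_snd, one_smul, zero_smul, sub_zero, el_fst]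
  · rfl

theorem rightMul_pow (n : ℕ) (v : F[X]) :
    ((rightMul F (L F) (el 0 1)) ^ n) (el v 0) = el (((T F) ^ n) v) 0 := by
  induction n generalizing v with
  | zero => rfl
  | succ n ih =>
    rw [pow_succ, Module.End.mul_apply, rightMul_el, ih, pow_succ (T F) n, Module.End.mul_apply]

theorem not_nilpotent : ¬ IsNilpotent (rightMul F (L F) (el 0 1)) := by
  rintro ⟨n, hn⟩
  have h1 := rightMul_pow n (X ^ n : F[X])
  rw [hn, LinearMap.zero_apply] at h1
  have h2 : ((T F) ^ n) (X ^ n : F[X]) = 1 := by
    have := T_pow_X F n 0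
    simpa using this
  rw [h2] at h1
  have h3 : (0 : F[X]) = 1 := congrArg Prod.fst h1
  exact zero_ne_one h3

end Example

/-- **The equivalence `a ∈ L(A) ↔ R_a ∈ L(A^*)` fails for Engel Lie algebras, over every field.**
For every field `F` there are an Engel Lie algebra `A` over `F` and an element `a ∈ L(A)` with
`R_a ∉ L(A^*)`; moreover `A` can be chosen locally nilpotent, i.e. with `L(A) = A`. -/
theorem result (F : Type u) [Field F] :
    ∃ (A : Type u) (_ : LieRing A) (_ : LieAlgebra F A),
      IsEngel A ∧ lieRadical F A = ⊤ ∧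
        ∃ a : A, a ∈ lieRadical F A ∧ rightMul F A a ∉ assocRadical (multAlg F A) := by
  refine ⟨L F, inferInstance, inferInstance, engel, radical_eq_top,
    el 0 1, ?_, ?_⟩
  · rw [radical_eq_top]
    exact LieSubmodule.mem_top _
  · intro h
    exact not_nilpotent (nil_radical h)

end Pool.Agent.Results.MP_2c0ed3_al.RadicalNotEquivalent
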